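import Mathlib
import Pool.Agent.H403Z.CrossTS

set_option autoImplicit false

/-!
The product bound for cross-`(t,s)` families fails whenever `n - t - s = 2 k + 1` is odd and `s` is
large: fix a `t`-set `A` and take the supersets of `A` with `t + k` and with `t + k + 1` elements.
Their product has order `n ^ (2 k + 1)`, while a `(t,s)`-family has `O(n ^ k)` members.
-/

namespace Pool.Agent.Results.MP_633f17_co.AOddGap

open Finset

/-- `F` and `G` are cross-`(t,s)` families of subsets of an `n`-element set. -/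
def Cross (n t s : ℕ) (F G : Finset (Finset (Fin n))) : Prop :=
  ∀ A ∈ F, ∀ B ∈ G, t ≤ (A ∩ B).card ∧ (A ∪ B).card ≤ n - s

/-- `F` is a `(t,s)`-family: it is `t`-intersecting and `s`-union. -/
def IsTSFamily (n t s : ℕ) (F : Finset (Finset (Fin n))) : Prop :=
  (∀ A ∈ F, ∀ B ∈ F, t ≤ (A ∩ B).card) ∧ ∀ A ∈ F, ∀ B ∈ F, (A ∪ B).card ≤ n - s

open Classical in
/-- `m(n,t,s)`: the largest size of a `(t,s)`-family of subsets of an `n`-element set. -/
noncomputable def maxTS (n t s : ℕ) : ℕ :=
  (univ.filter fun F : Finset (Finset (Fin n)) => IsTSFamily n t s F).sup Finset.card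

theorem result (t k : ℕ) : ∃ s₀ : ℕ, ∀ s n : ℕ, s₀ ≤ s → n = t + s + (2 * k + 1) →
    ∃ F G : Finset (Finset (Fin n)), Cross n t s F G ∧ maxTS n t s ^ 2 < F.card * G.card := by
  classical
  obtain ⟨s₀, h⟩ := Pool.Agent.H403Z.CrossTS.numeric t k
  refine ⟨s₀, fun s n hs hn => ?_⟩
  obtain ⟨A, -, hA⟩ := exists_subset_card_eq (s := (univ : Finset (Fin n))) (n := t)
    (by rw [card_univ, Fintype.card_fin]; omega)
  refine ⟨Pool.Agent.H403Z.CrossTS.star A k, Pool.Agent.H403Z.CrossTS.star A (k + 1), ?_, ?_⟩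
  · intro B hB C hC
    have := Pool.Agent.H403Z.CrossTS.star_cross A k (k + 1) B hB C hC
    omega
  · rw [Pool.Agent.H403Z.CrossTS.card_star, Pool.Agent.H403Z.CrossTS.card_star, hA,
      show n - t = s + 2 * k + 1 by omega]
    refine lt_of_le_of_lt (Nat.pow_le_pow_left ?_ 2) (h s hs)
    refine Finset.sup_le fun H hH => ?_
    obtain ⟨h1, h2⟩ := (mem_filter.1 hH).2
    have := Pool.Agent.H403Z.CrossTS.upper n t k (by omega) H (fun A hA B hB =>
      ⟨h1 A hA B hB, by have := h2 A hA B hB; omega⟩)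
    rwa [show t + s + 2 * k + 1 = n by omega]

end Pool.Agent.Results.MP_633f17_co.AOddGap
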